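import Mathlib

/-!
A finitely generated torsion-free group containing all powers of a given one.
-/

set_option autoImplicit false

namespace Pool.Agent.H917AT

universe u v w

/-- torsion-free -/
def TF (G : Type u) [Group G] : Prop := ∀ (g : G) (n : ℕ), 0 < n → g ^ n = 1 → g = 1

section

variable {G : Type u} [Group G]

/-- base functions -/
def bs (G : Type u) [Group G] : (Multiplicative ℤ → G) →* RegularWreathProduct G (Multiplicative ℤ) where
  toFun f := ⟨f, 1⟩
  map_one' := rfl
  map_mul' f g := by
    ext
    · simp
    · simp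

theorem bs_inj {f : Multiplicative ℤ → G} (h : bs G f = 1) : f = 1 :=
  congrArg RegularWreathProduct.left h

/-- a single coordinate -/
def sg (G : Type u) [Group G] (i : Multiplicative ℤ) :
    G →* RegularWreathProduct G (Multiplicative ℤ) :=
  (bs G).comp (MonoidHom.mulSingle (fun _ => G) i)

theorem tf_wr (hG : TF G) : TF (RegularWreathProduct G (Multiplicative ℤ)) := by
  intro g n hn h
  have h1 : g.right ^ n = 1 := by
    have := congrArg RegularWreathProduct.rightHom h
    rw [map_pow, map_one] at this
    exact this
  have h2 : g.right = 1 := by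
    have h3 : Multiplicative.toAdd (g.right ^ n) = 0 := by rw [h1]; rfl
    rw [toAdd_pow, nsmul_eq_mul] at h3
    rcases mul_eq_zero.1 h3 with h4 | h4
    · exfalso
      have : n = 0 := by exact_mod_cast h4
      omega
    · exact h4
  have h3 : g = bs G g.left := by
    ext1
    · rfl
    · exact h2
  rw [h3, ← map_pow] at h
  have h4 := bs_inj h
  have h5 : g.left = 1 := by
    funext x
    exact hG _ n hn (congrFun h4 x)
  rw [h3, h5, map_one]

theorem sg_conj (i : Multiplicative ℤ) (g : G) :
    sg G i g = RegularWreathProduct.inl i * sg G 1 g * (RegularWreathProduct.inl i)⁻¹ := by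
  classical
  apply RegularWreathProduct.ext
  · funext x
    simp only [sg, bs, MonoidHom.comp_apply, MonoidHom.coe_mk, OneHom.coe_mk,
      RegularWreathProduct.mul_left, RegularWreathProduct.left_inl, one_mul,
      RegularWreathProduct.mul_right, RegularWreathProduct.right_inl, Pi.mul_apply,
      RegularWreathProduct.inv_left, MonoidHom.mulSingle_apply]
    by_cases h : x = i
    · subst h
      simp
    · have h2 : i⁻¹ * x ≠ 1 := by
        intro h3
        exact h (inv_mul_eq_one.1 h3).symm
      rw [Pi.mulSingle_eq_of_ne h, Pi.mulSingle_eq_of_ne h2]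
      simp
  · simp [sg, bs]

/-- the finitely generated subgroup -/
def HH (S : Set G) : Subgroup (RegularWreathProduct G (Multiplicative ℤ)) :=
  Subgroup.closure (sg G 1 '' S ∪ {RegularWreathProduct.inl (Multiplicative.ofAdd (1 : ℤ))})

theorem sg_one_mem (S : Set G) (hS : Subgroup.closure S = ⊤) (g : G) : sg G 1 g ∈ HH S := by
  have h1 : (Subgroup.closure S).map (sg G 1) ≤ HH S := by
    rw [MonoidHom.map_closure]
    exact Subgroup.closure_mono Set.subset_union_left
  apply h1
  exact ⟨g, by rw [hS]; exact Subgroup.mem_top g, rfl⟩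

theorem inl_mem (S : Set G) (k : Multiplicative ℤ) :
    (RegularWreathProduct.inl k : RegularWreathProduct G (Multiplicative ℤ)) ∈ HH S := by
  have h1 : (RegularWreathProduct.inl (Multiplicative.ofAdd (1 : ℤ)) :
      RegularWreathProduct G (Multiplicative ℤ)) ∈ HH S :=
    Subgroup.subset_closure (Or.inr rfl)
  have h2 : k = (Multiplicative.ofAdd (1 : ℤ)) ^ (Multiplicative.toAdd k) := by
    apply Multiplicative.toAdd.injective
    rw [toAdd_zpow]
    simp
  rw [h2, map_zpow]
  exact (HH S).zpow_mem h1 _

theorem sg_mem (S : Set G) (hS : Subgroup.closure S = ⊤) (i : Multiplicative ℤ) (g : G) :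
    sg G i g ∈ HH S := by
  rw [sg_conj]
  exact (HH S).mul_mem ((HH S).mul_mem (inl_mem S i) (sg_one_mem S hS g))
    ((HH S).inv_mem (inl_mem S i))

theorem bs_mem (S : Set G) (hS : Subgroup.closure S = ⊤) (s : Finset (Multiplicative ℤ)) :
    ∀ f : Multiplicative ℤ → G, (∀ x, x ∉ s → f x = 1) → bs G f ∈ HH S := by
  classical
  induction s using Finset.induction_on with
  | empty =>
    intro f hf
    have : f = 1 := funext fun x => hf x (Finset.notMem_empty x)
    rw [this, map_one]
    exact (HH S).one_mem
  | insert a s ha ih =>
    intro f hf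
    set f' : Multiplicative ℤ → G := fun x => if x = a then 1 else f x with hf'
    have h1 : bs G f = sg G a (f a) * bs G f' := by
      rw [sg, MonoidHom.comp_apply, ← map_mul]
      congr 1
      funext x
      rw [Pi.mul_apply, MonoidHom.mulSingle_apply]
      by_cases h : x = a
      · subst h
        simp [hf']
      · rw [Pi.mulSingle_eq_of_ne h]
        simp [hf', h]
    rw [h1]
    refine (HH S).mul_mem (sg_mem S hS _ _) (ih f' fun x hx => ?_)
    by_cases h : x = a
    · simp [hf', h]
    · simp only [hf', if_neg h]
      exact hf x (by simp [h, hx])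

/-- A finitely generated torsion-free group containing all powers. -/
theorem exists_big (hG : TF G) (hfg : Group.FG G) :
    ∃ (H : Type u) (_ : Group H), TF H ∧ Group.FG H ∧
      ∀ n : ℕ, ∃ ψ : (Fin n → G) →* H, ∀ a, ψ a = 1 → a = 1 := by
  classical
  obtain ⟨S, hS⟩ := Group.fg_def.1 hfg
  refine ⟨HH (S : Set G), inferInstance, ?_, ?_, ?_⟩
  · intro g n hn h
    apply Subtype.ext
    exact tf_wr hG g n hn (by
      have := congrArg Subtype.val h
      simpa using this)
  · rw [Group.fg_iff_subgroup_fg]
    refine ⟨S.image (sg G 1) ∪ {RegularWreathProduct.inl (Multiplicative.ofAdd (1 : ℤ))}, ?_⟩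
    rw [HH]
    congr 1
    push_cast
    rfl
  · intro n
    set j : Fin n → Multiplicative ℤ := fun i => Multiplicative.ofAdd ((i : ℕ) : ℤ) with hj
    have hji : Function.Injective j := by
      intro a b hab
      have h1 : ((a : ℕ) : ℤ) = ((b : ℕ) : ℤ) := hab
      exact Fin.ext (by exact_mod_cast h1)
    set φ : (Fin n → G) →* RegularWreathProduct G (Multiplicative ℤ) :=
      (bs G).comp (Function.ExtendByOne.hom G j) with hφ
    have hmem : ∀ x, φ x ∈ HH (S : Set G) := by
      intro x
      refine bs_mem (S : Set G) hS (Finset.univ.image j) _ fun y hy => ?_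
      have h1 : ¬ ∃ a, j a = y := by
        rintro ⟨a, ha⟩
        exact hy (Finset.mem_image.2 ⟨a, Finset.mem_univ _, ha⟩)
      show Function.extend j x 1 y = 1
      rw [Function.extend_apply' _ _ _ h1]
      rfl
    refine ⟨φ.codRestrict _ hmem, fun a ha => ?_⟩
    have h1 : φ a = 1 := congrArg Subtype.val ha
    have h2 := bs_inj h1
    funext i
    have h3 := congrFun h2 (j i)
    have h4 : Function.extend j a 1 (j i) = a i := hji.extend_apply a 1 i
    have h5 : Function.extend j a 1 (j i) = 1 := h3
    rw [← h4, h5]
    rfl

/-- the inclusion of the first coordinates -/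
def inL (G : Type u) [Group G] (m n : ℕ) : (Fin m → G) →* (Fin (m + n) → G) where
  toFun x := Fin.append x 1
  map_one' := by
    funext i
    refine Fin.addCases (fun j => ?_) (fun j => ?_) i
    · simp
    · simp
  map_mul' x y := by
    funext i
    refine Fin.addCases (fun j => ?_) (fun j => ?_) i
    · simp
    · simp

/-- the inclusion of the last coordinates -/
def inR (G : Type u) [Group G] (m n : ℕ) : (Fin n → G) →* (Fin (m + n) → G) where
  toFun x := Fin.append 1 x
  map_one' := by
    funext i
    refine Fin.addCases (fun j => ?_) (fun j => ?_) i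
    · simp
    · simp
  map_mul' x y := by
    funext i
    refine Fin.addCases (fun j => ?_) (fun j => ?_) i
    · simp
    · simp

theorem inLR (G : Type u) [Group G] (m n : ℕ) (x : Fin m → G) (y : Fin n → G) :
    inL G m n x * inR G m n y = Fin.append x y := by
  funext i
  refine Fin.addCases (fun j => ?_) (fun j => ?_) i
  · simp [inL, inR]
  · simp [inL, inR]

theorem inRL (G : Type u) [Group G] (m n : ℕ) (x : Fin m → G) (y : Fin n → G) :
    inR G m n y * inL G m n x = Fin.append x y := by
  funext i
  refine Fin.addCases (fun j => ?_) (fun j => ?_) i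
  · simp [inL, inR]
  · simp [inL, inR]

theorem append_eq_one (G : Type u) [Group G] (m n : ℕ) (x : Fin m → G) (y : Fin n → G)
    (h : Fin.append x y = 1) : x = 1 ∧ y = 1 := by
  constructor
  · funext i
    have := congrFun h (Fin.castAdd n i)
    simpa using this
  · funext i
    have := congrFun h (Fin.natAdd m i)
    simpa using this

end

end Pool.Agent.H917AT
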