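import Pool.Agent.H917AT.Rep
import Pool.Agent.H917AT.Wr
import Pool.Agent.H71R2.Idem.Kap

/-!
Dimensions of kernels of single elements of complex group algebras.
-/

set_option autoImplicit false

namespace Pool.Agent.H917AT.Az

open MonoidAlgebra
open scoped ENNReal InnerProductSpace
open Pool.Agent.H71R2.Idem.Kap (L lam lam_apply L_single rt rt_apply L_rt tr_inner)

universe u v w

section

variable {G : Type u} [Group G]

/-- the kernel of left convolution -/
noncomputable def Kn (α : MonoidAlgebra ℂ G) : Submodule ℂ (L2 G) := LinearMap.ker (L α).toLinearMap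

theorem mem_Kn (α : MonoidAlgebra ℂ G) (f : L2 G) : f ∈ Kn α ↔ L α f = 0 := LinearMap.mem_ker

theorem Kn_closed (α : MonoidAlgebra ℂ G) : IsClosed (Kn α : Set (L2 G)) := by
  have : (Kn α : Set (L2 G)) = {f | L α f = 0} := by
    ext f; exact mem_Kn α f
  rw [this]
  exact isClosed_eq (L α).continuous continuous_const

theorem L_map_apply {H : Type w} [Group H] (φ : G →* H) (α : MonoidAlgebra ℂ G) (f : L2 H) (z : H) :
    L (mapDomainRingHom ℂ φ α) f z = α.coeff.sum (fun k c => c * f ((φ k)⁻¹ * z)) := by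
  induction α using MonoidAlgebra.induction_linear with
  | zero => rw [map_zero, map_zero]; simp
  | add a b ha hb =>
    rw [map_add, map_add, _root_.add_apply, lp.coeFn_add, Pi.add_apply, ha, hb,
      MonoidAlgebra.coeff_add, Finsupp.sum_add_index']
    · intro k; rw [zero_mul]
    · intro k c d; rw [add_mul]
  | single k c =>
    rw [mapDomainRingHom_apply, mapDomain_single, L_single, _root_.smul_apply,
      lp.coeFn_smul, Pi.smul_apply, lam_apply, MonoidAlgebra.coeff_single, Finsupp.sum_single_index]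
    · rfl
    · rw [zero_mul]

theorem L_apply (α : MonoidAlgebra ℂ G) (f : L2 G) (z : G) :
    L α f z = α.coeff.sum (fun k c => c * f (k⁻¹ * z)) := by
  have h := L_map_apply (MonoidHom.id G) α f z
  have h2 : mapDomainRingHom ℂ (MonoidHom.id G) α = α := by
    rw [mapDomainRingHom_id]; rfl
  rw [h2] at h
  exact h

theorem exists_adj (α : MonoidAlgebra ℂ G) : ∃ α' : MonoidAlgebra ℂ G, ∀ f g : L2 G,
    ⟪L α' f, g⟫_ℂ = ⟪f, L α g⟫_ℂ := by
  induction α using MonoidAlgebra.induction_linear with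
  | zero => exact ⟨0, fun f g => by rw [map_zero]; simp⟩
  | add a b ha hb =>
    obtain ⟨a', ha'⟩ := ha
    obtain ⟨b', hb'⟩ := hb
    refine ⟨a' + b', fun f g => ?_⟩
    rw [map_add, map_add, _root_.add_apply, _root_.add_apply,
      inner_add_left, inner_add_right, ha', hb']
  | single k c =>
    refine ⟨single k⁻¹ (starRingEnd ℂ c), fun f g => ?_⟩
    rw [L_single, L_single, _root_.smul_apply, _root_.smul_apply,
      inner_smul_left, inner_smul_right, Complex.conj_conj]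
    congr 1
    have h1 : ⟪lam k (lam k⁻¹ f), lam k g⟫_ℂ = ⟪lam k⁻¹ f, g⟫_ℂ :=
      tr_inner (Equiv.mulLeft k⁻¹) (lam k⁻¹ f) g
    have h2 : lam k (lam k⁻¹ f) = f := by
      have h3 : (lam k * lam k⁻¹) f = f := by
        rw [← map_mul, mul_inv_cancel, map_one]
        rfl
      exact h3
    rw [h2] at h1
    exact h1.symm

/-- common kernels are kernels -/
theorem exists_inf (a b : MonoidAlgebra ℂ G) : ∃ c : MonoidAlgebra ℂ G, ∀ f : L2 G,
    L c f = 0 ↔ L a f = 0 ∧ L b f = 0 := by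
  obtain ⟨a', ha'⟩ := exists_adj a
  obtain ⟨b', hb'⟩ := exists_adj b
  refine ⟨a' * a + b' * b, fun f => ?_⟩
  have h0 : L (a' * a + b' * b) f = L a' (L a f) + L b' (L b f) := by
    rw [map_add, map_mul, map_mul]
    rfl
  constructor
  · intro h
    rw [h0] at h
    have h1 : ⟪L a' (L a f) + L b' (L b f), f⟫_ℂ = 0 := by rw [h, inner_zero_left]
    rw [inner_add_left, ha', hb', inner_self_eq_norm_sq_to_K, inner_self_eq_norm_sq_to_K] at h1
    have h20 : ((‖L a f‖ ^ 2 + ‖L b f‖ ^ 2 : ℝ) : ℂ) = 0 := by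
      rw [Complex.ofReal_add, Complex.ofReal_pow, Complex.ofReal_pow]
      exact h1
    have h2 : ‖L a f‖ ^ 2 + ‖L b f‖ ^ 2 = 0 := Complex.ofReal_eq_zero.1 h20
    have h3 : ‖L a f‖ ^ 2 = 0 := by nlinarith [sq_nonneg ‖L a f‖, sq_nonneg ‖L b f‖]
    have h4 : ‖L b f‖ ^ 2 = 0 := by nlinarith [sq_nonneg ‖L a f‖, sq_nonneg ‖L b f‖]
    exact ⟨norm_eq_zero.1 (pow_eq_zero_iff two_ne_zero |>.1 h3),
      norm_eq_zero.1 (pow_eq_zero_iff two_ne_zero |>.1 h4)⟩
  · rintro ⟨h1, h2⟩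
    rw [h0, h1, h2, map_zero, map_zero, add_zero]

open Classical in
/-- the dimension of the kernel -/
noncomputable def kq (α : MonoidAlgebra ℂ G) : ℝ := pd (Kn α : Set (L2 G)) (1 : G)

theorem kq_congr {α β : MonoidAlgebra ℂ G} (h : ∀ f : L2 G, L α f = 0 ↔ L β f = 0) :
    kq α = kq β := by
  unfold kq
  congr 1
  ext f
  rw [SetLike.mem_coe, SetLike.mem_coe, mem_Kn, mem_Kn, h]

theorem kq_zero : kq (0 : MonoidAlgebra ℂ G) = 1 := by
  classical
  unfold kq pd
  rw [Metric.infDist_zero_of_mem]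
  · norm_num
  · rw [SetLike.mem_coe, mem_Kn, map_zero]; rfl

theorem kq_pos (α : MonoidAlgebra ℂ G) {f : L2 G} (hf : f ≠ 0) (h : L α f = 0) : 0 < kq α := by
  classical
  obtain ⟨u, hu⟩ := exists_Rp (Kn α) (Kn_closed α) (1 : G)
  have h1 : kq α = ‖u‖ ^ 2 := hu.pd_eq
  rw [h1]
  by_contra hcon
  have hu0 : u = 0 := by
    have h2 : ‖u‖ ^ 2 = 0 := le_antisymm (not_lt.1 hcon) (sq_nonneg _)
    exact norm_eq_zero.1 (pow_eq_zero_iff two_ne_zero |>.1 h2)
  apply hf
  apply lp.ext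
  funext x
  have h3 : rt x f ∈ Kn α := by rw [mem_Kn, L_rt, h, map_zero]
  have h4 := hu.2 _ h3
  rw [hu0, inner_zero_left, rt_apply, one_mul] at h4
  rw [h4]
  rfl

theorem kq_lt_one (α : MonoidAlgebra ℂ G) (h : α ≠ 0) : kq α < 1 := by
  classical
  have h1 : kq α ≤ 1 := by
    unfold kq pd
    nlinarith [sq_nonneg (Metric.infDist (lp.single 2 (1 : G) (1 : ℂ) : L2 G) (Kn α : Set (L2 G)))]
  refine lt_of_le_of_ne h1 fun h2 => h ?_
  have h3 : Metric.infDist (lp.single 2 (1 : G) (1 : ℂ) : L2 G) (Kn α : Set (L2 G)) = 0 := by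
    unfold kq pd at h2
    have : Metric.infDist (lp.single 2 (1 : G) (1 : ℂ) : L2 G) (Kn α : Set (L2 G)) ^ 2 = 0 := by
      linarith
    exact pow_eq_zero_iff two_ne_zero |>.1 this
  have h4 : (lp.single 2 (1 : G) (1 : ℂ) : L2 G) ∈ (Kn α : Set (L2 G)) :=
    ((Kn_closed α).mem_iff_infDist_zero ⟨0, (Kn α).zero_mem⟩).2 h3
  rw [SetLike.mem_coe, mem_Kn] at h4
  ext x
  have h5 := Pool.Agent.H71R2.Idem.Kap.L_dl_apply α x
  have h6 : (Pool.Agent.H71R2.Idem.Kap.dl : L2 G) = lp.single 2 (1 : G) (1 : ℂ) := rfl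
  rw [h6, h4] at h5
  rw [← h5]
  rfl

theorem kq_of_inj (α : MonoidAlgebra ℂ G) (h : ∀ f : L2 G, L α f = 0 → f = 0) : kq α = 0 := by
  classical
  obtain ⟨u, hu⟩ := exists_Rp (Kn α) (Kn_closed α) (1 : G)
  have h1 : kq α = ‖u‖ ^ 2 := hu.pd_eq
  rw [h1, h u ((mem_Kn _ _).1 hu.1)]
  simp

end

section

variable {G : Type u} [Group G] {G' : Type v} [Group G'] {H : Type w} [Group H]

theorem kq_mul (φ : G →* H) (ψ : G' →* H) (hc : ∀ a b, φ a * ψ b = ψ b * φ a)
    (hi : ∀ a b, φ a * ψ b = 1 → a = 1 ∧ b = 1) (α : MonoidAlgebra ℂ G) (β : MonoidAlgebra ℂ G')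
    (γ : MonoidAlgebra ℂ H) (hγ : ∀ f : L2 H, L γ f = 0 ↔
      L (mapDomainRingHom ℂ φ α) f = 0 ∧ L (mapDomainRingHom ℂ ψ β) f = 0) :
    kq γ = kq α * kq β := by
  classical
  set e : G × G' → H := fun p => φ p.1 * ψ p.2 with he
  have hinj : Function.Injective e := by
    rintro ⟨g, g'⟩ ⟨h, h'⟩ heq
    have h2 : φ g * ψ g' = φ h * ψ h' := heq
    have h3 : φ (h⁻¹ * g) * ψ (g' * h'⁻¹) = 1 := by
      rw [map_mul, map_mul, map_inv, map_inv]
      calc (φ h)⁻¹ * φ g * (ψ g' * (ψ h')⁻¹) = (φ h)⁻¹ * (φ g * ψ g') * (ψ h')⁻¹ := by group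
        _ = (φ h)⁻¹ * (φ h * ψ h') * (ψ h')⁻¹ := by rw [h2]
        _ = 1 := by group
    obtain ⟨h4, h5⟩ := hi _ _ h3
    have h6 : g = h := by rw [inv_mul_eq_one] at h4; exact h4.symm
    have h7 : g' = h' := mul_inv_eq_one.1 h5
    rw [h6, h7]
  have hcinv : ∀ a b, (ψ b)⁻¹ * φ a = φ a * (ψ b)⁻¹ := by
    intro a b
    have h := hc a b⁻¹
    rw [map_inv] at h
    exact h.symm
  have h1 : ∀ f ∈ Kn γ, ∀ y,
      (⟨fun x => f (e (x, y)), slice_mem e hinj f y⟩ : L2 G) ∈ Kn α := by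
    intro f hf g'
    rw [mem_Kn]
    apply lp.ext
    funext g
    have h2 := congrArg (fun F : L2 H => F (φ g * ψ g')) ((hγ f).1 ((mem_Kn _ _).1 hf)).1
    simp only [L_map_apply] at h2
    rw [L_apply]
    refine Eq.trans ?_ h2
    refine Finsupp.sum_congr fun k _ => ?_
    show _ * f (φ (k⁻¹ * g) * ψ g') = _
    rw [map_mul, map_inv, mul_assoc (φ k)⁻¹]
  have h2 : ∀ f ∈ Kn γ, ∀ x,
      (⟨fun y => f (e (x, y)), slice_mem' e hinj f x⟩ : L2 G') ∈ Kn β := by
    intro f hf g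
    rw [mem_Kn]
    apply lp.ext
    funext g'
    have h2 := congrArg (fun F : L2 H => F (φ g * ψ g')) ((hγ f).1 ((mem_Kn _ _).1 hf)).2
    simp only [L_map_apply] at h2
    rw [L_apply]
    refine Eq.trans ?_ h2
    refine Finsupp.sum_congr fun k _ => ?_
    show _ * f (φ g * ψ (k⁻¹ * g')) = _
    rw [map_mul, map_inv, ← mul_assoc, ← hcinv, mul_assoc]
  have h3 : ∀ u ∈ Kn α, ∀ w ∈ Kn β, pv e hinj u w ∈ Kn γ := by
    intro u hu w hw
    rw [mem_Kn, hγ]
    constructor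
    · apply lp.ext
      funext z
      rw [L_map_apply]
      show _ = (0 : ℂ)
      by_cases hz : ∃ g g', z = φ g * ψ g'
      · obtain ⟨g, g', rfl⟩ := hz
        have h4 : ∀ k : G, pv e hinj u w ((φ k)⁻¹ * (φ g * ψ g')) = u (k⁻¹ * g) * w g' := by
          intro k
          have h5 : (φ k)⁻¹ * (φ g * ψ g') = e (k⁻¹ * g, g') := by
            simp only [he]
            rw [map_mul, map_inv, mul_assoc]
          rw [h5, pv_apply]
        have h6 := congrArg (fun F : L2 G => F g) ((mem_Kn _ _).1 hu)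
        simp only [L_apply] at h6
        have h7 : α.coeff.sum (fun k c => c * pv e hinj u w ((φ k)⁻¹ * (φ g * ψ g'))) =
            w g' * α.coeff.sum (fun k c => c * u (k⁻¹ * g)) := by
          rw [Finsupp.mul_sum]
          refine Finsupp.sum_congr fun k _ => ?_
          rw [h4]
          ring
        rw [h7, h6]
        exact mul_zero _
      · rw [Finsupp.sum]
        refine Finset.sum_eq_zero fun k _ => ?_
        rw [pv_apply', mul_zero]
        rintro ⟨g, g'⟩ hp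
        apply hz
        have h6 : φ g * ψ g' = (φ k)⁻¹ * z := hp
        refine ⟨k * g, g', ?_⟩
        rw [map_mul, mul_assoc, h6]
        group
    · apply lp.ext
      funext z
      rw [L_map_apply]
      show _ = (0 : ℂ)
      by_cases hz : ∃ g g', z = φ g * ψ g'
      · obtain ⟨g, g', rfl⟩ := hz
        have h4 : ∀ k : G', pv e hinj u w ((ψ k)⁻¹ * (φ g * ψ g')) = u g * w (k⁻¹ * g') := by
          intro k
          have h5 : (ψ k)⁻¹ * (φ g * ψ g') = e (g, k⁻¹ * g') := by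
            simp only [he]
            rw [map_mul, map_inv, ← mul_assoc, hcinv, mul_assoc]
          rw [h5, pv_apply]
        have h6 := congrArg (fun F : L2 G' => F g') ((mem_Kn _ _).1 hw)
        simp only [L_apply] at h6
        have h7 : β.coeff.sum (fun k c => c * pv e hinj u w ((ψ k)⁻¹ * (φ g * ψ g'))) =
            u g * β.coeff.sum (fun k c => c * w (k⁻¹ * g')) := by
          rw [Finsupp.mul_sum]
          refine Finsupp.sum_congr fun k _ => ?_
          rw [h4]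
          ring
        rw [h7, h6]
        exact mul_zero _
      · rw [Finsupp.sum]
        refine Finset.sum_eq_zero fun k _ => ?_
        rw [pv_apply', mul_zero]
        rintro ⟨g, g'⟩ hp
        apply hz
        have h6 : φ g * ψ g' = (ψ k)⁻¹ * z := hp
        refine ⟨g, k * g', ?_⟩
        have h8 : z = ψ k * (φ g * ψ g') := by rw [h6]; group
        rw [h8, map_mul, ← mul_assoc, ← hc, mul_assoc]
  obtain ⟨u, hu⟩ := exists_Rp (Kn α) (Kn_closed α) (1 : G)
  obtain ⟨w, hw⟩ := exists_Rp (Kn β) (Kn_closed β) (1 : G')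
  have h4 := Rp.prod e hinj h1 h2 h3 hu hw
  have h5 : e ((1 : G), (1 : G')) = (1 : H) := by simp [he]
  rw [h5] at h4
  have h6 : kq γ = ‖pv e hinj u w‖ ^ 2 := h4.pd_eq
  have h7 : kq α = ‖u‖ ^ 2 := hu.pd_eq
  have h8 : kq β = ‖w‖ ^ 2 := hw.pd_eq
  rw [h6, h7, h8, pv_norm]

/-- the dimensions of kernels of elements -/
def D1 (G : Type u) [Group G] (t : ℝ) : Prop := ∃ α : MonoidAlgebra ℂ G, kq α = t

theorem D1.mul {t s : ℝ} (ht : D1 G t) (hs : D1 G' s) (φ : G →* H) (ψ : G' →* H)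
    (hc : ∀ a b, φ a * ψ b = ψ b * φ a) (hi : ∀ a b, φ a * ψ b = 1 → a = 1 ∧ b = 1) :
    D1 H (t * s) := by
  obtain ⟨α, rfl⟩ := ht
  obtain ⟨β, rfl⟩ := hs
  obtain ⟨γ, hγ⟩ := exists_inf (mapDomainRingHom ℂ φ α) (mapDomainRingHom ℂ ψ β)
  exact ⟨γ, kq_mul φ ψ hc hi α β γ hγ⟩

theorem kq_map (φ : G →* H) (hφ : ∀ a, φ a = 1 → a = 1) (α : MonoidAlgebra ℂ G) :
    kq (mapDomainRingHom ℂ φ α) = kq α := by
  have h := kq_mul φ (1 : Unit →* H) (fun a b => by simp)
    (fun a b h => ⟨hφ a (by simpa using h), rfl⟩) α 0 (mapDomainRingHom ℂ φ α) (fun f => by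
      rw [map_zero, map_zero]
      exact ⟨fun h => ⟨h, rfl⟩, fun h => h.1⟩)
  rw [h, kq_zero, mul_one]

theorem D1.map {t : ℝ} (ht : D1 G t) (φ : G →* H) (hφ : ∀ a, φ a = 1 → a = 1) : D1 H t := by
  obtain ⟨α, rfl⟩ := ht
  exact ⟨_, kq_map φ hφ α⟩

theorem D1.pow {t : ℝ} (ht : D1 G t) (k : ℕ) : D1 (Fin k → G) (t ^ k) := by
  induction k with
  | zero => rw [pow_zero]; exact ⟨0, kq_zero⟩
  | succ k ih =>
    rw [pow_succ]
    have h1 : D1 (Fin 1 → G) t := ht.map (Pi.constMonoidHom (Fin 1) G) (fun a ha => congrFun ha 0)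
    exact ih.mul h1 (inL G k 1) (inR G k 1) (fun a b => by rw [inLR, inRL])
      (fun a b h => by rw [inLR] at h; exact append_eq_one G k 1 a b h)

/-- a zero divisor gives small dimensions over one finitely generated group -/
theorem exists_small (hG : TF G) (α : MonoidAlgebra ℂ G) (hα : α ≠ 0) {f : L2 G} (hf : f ≠ 0)
    (h : L α f = 0) : ∃ (H : Type u) (_ : Group H), TF H ∧ Group.FG H ∧
      ∀ ε : ℝ, 0 < ε → ∃ β : MonoidAlgebra ℂ H, 0 < kq β ∧ kq β < ε := by
  classical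
  set N : Subgroup G := Subgroup.closure (α.coeff.support : Set G) with hN
  have hinj : Function.Injective (N.subtype : N → G) := Subtype.val_injective
  have hsub : (↑α.coeff.support : Set G) ⊆ Set.range (N.subtype : N → G) := by
    intro x hx
    exact ⟨⟨x, Subgroup.subset_closure hx⟩, rfl⟩
  obtain ⟨α0, hα0⟩ : ∃ α0 : MonoidAlgebra ℂ N, mapDomainRingHom ℂ N.subtype α0 = α :=
    ⟨_, mapDomain_comapDomain hsub hinj⟩
  have hNT : TF N := by
    intro g n hn h
    apply Subtype.ext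
    exact hG g n hn (by
      have := congrArg Subtype.val h
      simpa using this)
  have hx : kq α0 = kq α := by
    rw [← kq_map N.subtype (fun a ha => Subtype.ext ha) α0, hα0]
  have hx0 : 0 < kq α0 := by rw [hx]; exact kq_pos α hf h
  have hx1 : kq α0 < 1 := by rw [hx]; exact kq_lt_one α hα
  obtain ⟨H, _, hH, hHfg, hψ⟩ := exists_big hNT
    ((Group.fg_iff_subgroup_fg N).2 ⟨α.coeff.support, rfl⟩)
  refine ⟨H, inferInstance, hH, hHfg, fun ε hε => ?_⟩
  obtain ⟨k, hk⟩ := exists_pow_lt_of_lt_one hε hx1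
  obtain ⟨ψ, hψ⟩ := hψ k
  have hD : D1 N (kq α0) := ⟨α0, rfl⟩
  obtain ⟨β, hβ⟩ := (hD.pow k).map ψ hψ
  exact ⟨β, by rw [hβ]; exact pow_pos hx0 k, by rw [hβ]; exact hk⟩

end

end Pool.Agent.H917AT.Az
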