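import Pool.Agent.H917AT.Ker
import Pool.Agent.H917AT.Wr

/-!
The set of dimensions of kernels.
-/

set_option autoImplicit false

namespace Pool.Agent.H917AT

open scoped ENNReal InnerProductSpace

universe u v w

/-- `t` is the dimension of the kernel of a matrix over `G` with coefficients in `S` -/
def DD (S : AddSubmonoid ℂ) (G : Type u) [Group G] (t : ℝ) : Prop :=
  ∃ (m n : ℕ) (A : Matrix (Fin m) (Fin n) (G →₀ ℂ)), (∀ i j g, A i j g ∈ S) ∧ kd A = t

section

variable {S : AddSubmonoid ℂ} {G : Type u} [Group G] {G' : Type v} [Group G'] {H : Type w} [Group H]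

theorem mapDomain_mem {X : Type u} {Y : Type v} (φ : X → Y) (a : X →₀ ℂ) (ha : ∀ g, a g ∈ S)
    (z : Y) : (a.mapDomain φ) z ∈ S := by
  classical
  rw [Finsupp.mapDomain, Finsupp.sum_apply, Finsupp.sum]
  refine S.sum_mem fun g _ => ?_
  rw [Finsupp.single_apply]
  split_ifs
  · exact ha g
  · exact S.zero_mem

theorem DD.mul {t s : ℝ} (ht : DD S G t) (hs : DD S G' s) (φ : G →* H) (ψ : G' →* H)
    (hc : ∀ a b, φ a * ψ b = ψ b * φ a) (hi : ∀ a b, φ a * ψ b = 1 → a = 1 ∧ b = 1) :
    DD S H (t * s) := by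
  classical
  obtain ⟨m, n, A, hA, rfl⟩ := ht
  obtain ⟨m', n', B, hB, rfl⟩ := hs
  refine ⟨_, _, CC φ ψ A B, ?_, kd_CC φ ψ hc hi A B⟩
  intro i j g
  simp only [CC, Matrix.of_apply]
  rcases (Fintype.equivFin (Ix m n m' n')).symm j with q | q
  · simp only [Sum.elim_inl]
    split_ifs
    · exact mapDomain_mem _ _ (hA _ _) _
    · exact S.zero_mem
  · simp only [Sum.elim_inr]
    split_ifs
    · exact mapDomain_mem _ _ (hB _ _) _
    · exact S.zero_mem

theorem kd_zero (k : ℕ) (B : Matrix (Fin k) (Fin 0) (G →₀ ℂ)) : kd B = k := by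
  classical
  have h : ∀ x, x ∈ KerS B := fun x => by
    rw [mem_KerS]
    intro j
    exact j.elim0
  unfold kd
  have h2 : ∀ i : Fin k, pd (KerS B : Set (L2 (Fin k × G))) (i, (1 : G)) = 1 := by
    intro i
    unfold pd
    rw [Metric.infDist_zero_of_mem (h _)]
    norm_num
  rw [Finset.sum_congr rfl (fun i _ => h2 i)]
  simp

theorem DD.nat (k : ℕ) : DD S G k := ⟨k, 0, fun _ j => j.elim0, fun _ j => j.elim0, kd_zero k _⟩

theorem DD.mul_nat {t : ℝ} (ht : DD S G t) (c : ℕ) : DD S G (t * c) :=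
  ht.mul (DD.nat (G := Unit) c) (MonoidHom.id G) 1 (fun a b => by simp)
    (fun a b h => ⟨by simpa using h, rfl⟩)

/-- invariance under embeddings -/
theorem kd_map {m n : ℕ} (φ : G →* H) (hφ : ∀ a, φ a = 1 → a = 1)
    (A : Matrix (Fin m) (Fin n) (G →₀ ℂ)) : kd (A.map (Finsupp.mapDomain φ)) = kd A := by
  classical
  have hinjφ : Function.Injective φ := (injective_iff_map_eq_one φ).2 hφ
  have hmem : ∀ f : L2 (Fin m × H), f ∈ KerS (A.map (Finsupp.mapDomain φ)) ↔
      ∀ (j : Fin n) (z : H), ∑ i : Fin m, (A i j).sum (fun h c => f (i, z * (φ h)⁻¹) * c) = 0 := by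
    intro f
    rw [mem_KerS]
    refine forall_congr' fun j => forall_congr' fun z => ?_
    have h1 : ∀ i : Fin m, ((A.map (Finsupp.mapDomain φ)) i j).sum
        (fun h c => f (i, z * h⁻¹) * c) = (A i j).sum (fun h c => f (i, z * (φ h)⁻¹) * c) := by
      intro i
      rw [Matrix.map_apply, Finsupp.sum_mapDomain_index]
      · intro b; rw [mul_zero]
      · intro b c d; rw [mul_add]
    rw [Finset.sum_congr rfl (fun i _ => h1 i)]
  set e : (Fin m × G) × Unit → Fin m × H := fun p => (p.1.1, φ p.1.2) with he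
  have hinj : Function.Injective e := by
    rintro ⟨⟨i, g⟩, _⟩ ⟨⟨k, h⟩, _⟩ heq
    simp only [he, Prod.mk.injEq] at heq
    obtain ⟨rfl, h2⟩ := heq
    rw [hinjφ h2]
  set W : Submodule ℂ (L2 Unit) := ⊤ with hW
  have h1 : ∀ f ∈ KerS (A.map (Finsupp.mapDomain φ)), ∀ y,
      (⟨fun x => f (e (x, y)), slice_mem e hinj f y⟩ : L2 (Fin m × G)) ∈ KerS A := by
    rintro f hf y
    rw [mem_KerS]
    intro j g
    have h2 := (hmem f).1 hf j (φ g)
    rw [← h2]
    refine Finset.sum_congr rfl fun i _ => ?_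
    refine Finsupp.sum_congr fun h _ => ?_
    show f (i, φ (g * h⁻¹)) * _ = _
    rw [map_mul, map_inv]
  have h3 : ∀ u ∈ KerS A, ∀ w ∈ W, pv e hinj u w ∈ KerS (A.map (Finsupp.mapDomain φ)) := by
    intro u hu w _
    rw [hmem]
    intro j z
    by_cases hz : ∃ g, z = φ g
    · obtain ⟨g, rfl⟩ := hz
      have h4 : ∀ (i : Fin m) (h : G),
          pv e hinj u w (i, φ g * (φ h)⁻¹) = u (i, g * h⁻¹) * w () := by
        intro i h
        have h5 : (i, φ g * (φ h)⁻¹) = e ((i, g * h⁻¹), ()) := by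
          simp only [he]
          rw [map_mul, map_inv]
        rw [h5, pv_apply]
      have h5 : ∀ i : Fin m, (A i j).sum (fun h c => pv e hinj u w (i, φ g * (φ h)⁻¹) * c) =
          w () * (A i j).sum (fun h c => u (i, g * h⁻¹) * c) := by
        intro i
        rw [Finsupp.mul_sum]
        refine Finsupp.sum_congr fun h _ => ?_
        rw [h4]
        ring
      rw [Finset.sum_congr rfl (fun i _ => h5 i), ← Finset.mul_sum, hu j g, mul_zero]
    · refine Finset.sum_eq_zero fun i _ => ?_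
      rw [Finsupp.sum]
      refine Finset.sum_eq_zero fun h _ => ?_
      rw [pv_apply', zero_mul]
      rintro ⟨⟨k, g⟩, _⟩ hp
      apply hz
      have h6 : φ g = z * (φ h)⁻¹ := congrArg Prod.snd hp
      refine ⟨g * h, ?_⟩
      rw [map_mul, h6]
      group
  choose u hu using fun i : Fin m => exists_Rp (KerS A) (KerS_closed A) (i, (1 : G))
  obtain ⟨w, hw⟩ := exists_Rp W (by rw [hW]; exact isClosed_univ) ()
  have hw1 : ‖w‖ ^ 2 = 1 := by
    rw [← hw.pd_eq]
    unfold pd
    rw [Metric.infDist_zero_of_mem (by rw [hW]; exact Submodule.mem_top)]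
    norm_num
  unfold kd
  refine Finset.sum_congr rfl fun i _ => ?_
  have h4 := Rp.prod e hinj h1 (fun f _ x => Submodule.mem_top) h3 (hu i) hw
  have h5 : e ((i, (1 : G)), ()) = (i, (1 : H)) := by simp [he]
  rw [h5] at h4
  rw [h4.pd_eq, pv_norm, hw1, mul_one, (hu i).pd_eq]

theorem DD.map {t : ℝ} (ht : DD S G t) (φ : G →* H) (hφ : ∀ a, φ a = 1 → a = 1) : DD S H t := by
  obtain ⟨m, n, A, hA, rfl⟩ := ht
  refine ⟨m, n, A.map (Finsupp.mapDomain φ), fun i j g => ?_, kd_map φ hφ A⟩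
  rw [Matrix.map_apply]
  exact mapDomain_mem _ _ (hA i j) _

theorem DD.pow {t : ℝ} (ht : DD S G t) (k : ℕ) : DD S (Fin k → G) (t ^ k) := by
  induction k with
  | zero =>
    rw [pow_zero]
    exact_mod_cast (DD.nat (S := S) (G := Fin 0 → G) 1)
  | succ k ih =>
    rw [pow_succ]
    have h1 : DD S (Fin 1 → G) t := ht.map (Pi.constMonoidHom (Fin 1) G) (fun a ha => congrFun ha 0)
    exact ih.mul h1 (inL G k 1) (inR G k 1) (fun a b => by rw [inLR, inRL])
      (fun a b h => by rw [inLR] at h; exact append_eq_one G k 1 a b h)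

/-- restriction to a finitely generated subgroup -/
theorem DD.fg {t : ℝ} (ht : DD S G t) : ∃ N : Subgroup G, N.FG ∧ DD S N t := by
  classical
  obtain ⟨m, n, A, hA, rfl⟩ := ht
  set s : Finset G := Finset.univ.biUnion fun q : Fin m × Fin n => (A q.1 q.2).support with hs
  set N : Subgroup G := Subgroup.closure (s : Set G) with hN
  have hinj : Function.Injective (N.subtype : N → G) := Subtype.val_injective
  have hsub : ∀ i j, (↑(A i j).support : Set G) ⊆ Set.range (N.subtype : N → G) := by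
    intro i j x hx
    refine ⟨⟨x, Subgroup.subset_closure ?_⟩, rfl⟩
    exact Finset.mem_coe.2 (Finset.mem_biUnion.2 ⟨(i, j), Finset.mem_univ _, hx⟩)
  refine ⟨N, ⟨s, rfl⟩, m, n, Matrix.of fun i j => (A i j).comapDomain N.subtype hinj.injOn,
    fun i j g => ?_, ?_⟩
  · simp only [Matrix.of_apply, Finsupp.comapDomain_apply]
    exact hA i j _
  · rw [← kd_map N.subtype (fun a ha => Subtype.ext ha)]
    congr 1
    ext1 i j
    rw [Matrix.map_apply, Matrix.of_apply]
    exact Finsupp.mapDomain_comapDomain _ hinj _ (hsub i j)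

/-- one finitely generated torsion-free group with many dimensions -/
theorem exists_rich (hG : TF G) {x : ℝ} (hx : DD S G x) :
    ∃ (H : Type u) (_ : Group H), TF H ∧ Group.FG H ∧ ∀ c k : ℕ, DD S H (x ^ k * c) := by
  obtain ⟨N, hN, hNx⟩ := hx.fg
  have hNT : TF N := by
    intro g n hn h
    apply Subtype.ext
    exact hG g n hn (by
      have := congrArg Subtype.val h
      simpa using this)
  obtain ⟨H, _, hH, hHfg, hψ⟩ := exists_big hNT ((Group.fg_iff_subgroup_fg N).2 hN)
  refine ⟨H, inferInstance, hH, hHfg, fun c k => ?_⟩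
  obtain ⟨ψ, hψ⟩ := hψ k
  exact ((hNx.pow k).map ψ hψ).mul_nat c

end

end Pool.Agent.H917AT
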