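import Pool.Agent.H917AT.Dims

/-!
Bounded denominators, density modulo one and integrality of the dimensions.
-/

set_option autoImplicit false

namespace Pool.Agent.H917AT

universe u v w

/-- amplification: a small denominator for the `n`-th power -/
theorem int_of_pow (x : ℝ) (n N : ℕ) (hn : 0 < n) (hN : 0 < N) (hNn : N < 2 ^ n)
    (M : ℕ) (hM : 0 < M) (h1 : ∃ d : ℤ, (M : ℝ) * x = d) (h2 : ∃ d : ℤ, (N : ℝ) * x ^ n = d) :
    ∃ z : ℤ, x = z := by
  obtain ⟨d1, hd1⟩ := h1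
  obtain ⟨d2, hd2⟩ := h2
  have hM0 : (M : ℝ) ≠ 0 := by exact_mod_cast hM.ne'
  set q : ℚ := (d1 : ℚ) / (M : ℚ) with hq
  have hxq : x = q := by
    rw [hq]
    push_cast
    rw [eq_div_iff hM0, mul_comm]
    exact hd1
  rw [hxq] at hd2
  have hd2' : (N : ℚ) * q ^ n = d2 := by exact_mod_cast hd2
  have hN0 : (N : ℚ) ≠ 0 := by exact_mod_cast hN.ne'
  have h3 : q ^ n = (d2 : ℚ) / ((N : ℤ) : ℚ) := by
    rw [Int.cast_natCast, eq_div_iff hN0, mul_comm]
    exact hd2'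
  have h4 : ((q ^ n).den : ℤ) ∣ (N : ℤ) := by
    rw [h3, ← Rat.divInt_eq_div]
    exact Rat.den_dvd d2 N
  rw [Rat.den_pow] at h4
  have h5 : q.den ^ n ∣ N := by exact_mod_cast h4
  have h6 := Nat.le_of_dvd hN h5
  have h7 : q.den < 2 := by
    by_contra hcon
    push Not at hcon
    have := Nat.pow_le_pow_left hcon n
    omega
  have h8 : q.den = 1 := by
    have := q.pos
    omega
  refine ⟨q.num, ?_⟩
  rw [hxq]
  have h9 : q = q.num := by
    conv_lhs => rw [← Rat.num_div_den q]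
    rw [h8]
    simp
  exact_mod_cast h9

theorem int_of_bdd (x : ℝ) (N : ℕ) (hN : 0 < N) (h : ∀ k : ℕ, ∃ d : ℤ, (N : ℝ) * x ^ k = d) :
    ∃ z : ℤ, x = z :=
  int_of_pow x N N hN hN (Nat.lt_pow_self one_lt_two) N hN (by simpa using h 1) (h N)

/-- density modulo one of the multiples of the powers -/
theorem dense_mod (x : ℝ) (hx : ∀ z : ℤ, x ≠ z) (r s : ℝ) (hrs : r < s) :
    ∃ c k : ℕ, ∃ l : ℤ, r < x ^ k * c - l ∧ x ^ k * c - l < s := by
  obtain ⟨N0, hN0⟩ := exists_nat_one_div_lt (sub_pos.2 hrs)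
  set N : ℕ := N0 + 1 with hN
  have hNpos : 0 < N := Nat.succ_pos _
  obtain ⟨k, hk⟩ : ∃ k : ℕ, ∀ j : ℕ, 0 < j → j ≤ N → ∀ z : ℤ, (j : ℝ) * x ^ k ≠ z := by
    by_contra hcon
    push Not at hcon
    obtain ⟨z, hz⟩ := int_of_bdd x N.factorial (Nat.factorial_pos N) (fun k => by
      obtain ⟨j, hj0, hjN, z, hz⟩ := hcon k
      obtain ⟨m, hm⟩ := Nat.dvd_factorial hj0 hjN
      refine ⟨m * z, ?_⟩
      rw [hm]
      push_cast
      rw [← hz]
      ring)
    exact hx z hz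
  obtain ⟨j, hj0, hjN, hj⟩ := Real.exists_nat_abs_mul_sub_round_le (x ^ k) hNpos
  set δ : ℝ := (j : ℝ) * x ^ k - round ((j : ℝ) * x ^ k) with hδ
  have hδ0 : δ ≠ 0 := by
    intro h0
    exact hk j hj0 hjN _ (sub_eq_zero.1 h0)
  have hδs : |δ| < s - r := by
    refine lt_of_le_of_lt hj (lt_of_le_of_lt ?_ hN0)
    rw [hN]
    push_cast
    apply one_div_le_one_div_of_le
    · positivity
    · linarith
  rcases lt_or_gt_of_ne hδ0 with hneg | hpos
  · -- negative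
    rw [abs_of_neg hneg] at hδs
    obtain ⟨L, hL⟩ := exists_nat_ge s
    have hq0 : 0 ≤ (L - s) / (-δ) := div_nonneg (by linarith) (by linarith)
    set c : ℕ := ⌊(L - s) / (-δ)⌋₊ + 1 with hc
    have h1 : (L - s) / (-δ) < c := by
      rw [hc]; push_cast; exact Nat.lt_floor_add_one _
    have h2 : (c : ℝ) ≤ (L - s) / (-δ) + 1 := by
      rw [hc]; push_cast; linarith [Nat.floor_le hq0]
    have hδp : 0 < -δ := by linarith
    rw [div_lt_iff₀ hδp] at h1
    have h3 : (c : ℝ) * (-δ) ≤ (L - s) + (-δ) := by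
      have := mul_le_mul_of_nonneg_right h2 hδp.le
      rwa [add_mul, div_mul_cancel₀ _ hδp.ne', one_mul] at this
    refine ⟨c * j, k, c * round ((j : ℝ) * x ^ k) - L, ?_⟩
    have h4 : x ^ k * ((c * j : ℕ) : ℝ) - ((c * round ((j : ℝ) * x ^ k) - L : ℤ) : ℝ) =
        c * δ + L := by
      rw [hδ]
      push_cast
      ring
    rw [h4]
    constructor
    · linarith
    · linarith
  · rw [abs_of_pos hpos] at hδs
    obtain ⟨L, hL⟩ := exists_nat_ge (-r)
    have hq0 : 0 ≤ (r + L) / δ := div_nonneg (by linarith) hpos.le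
    set c : ℕ := ⌊(r + L) / δ⌋₊ + 1 with hc
    have h1 : (r + L) / δ < c := by
      rw [hc]; push_cast; exact Nat.lt_floor_add_one _
    have h2 : (c : ℝ) ≤ (r + L) / δ + 1 := by
      rw [hc]; push_cast; linarith [Nat.floor_le hq0]
    rw [div_lt_iff₀ hpos] at h1
    have h3 : (c : ℝ) * δ ≤ (r + L) + δ := by
      have := mul_le_mul_of_nonneg_right h2 hpos.le
      rwa [add_mul, div_mul_cancel₀ _ hpos.ne', one_mul] at this
    refine ⟨c * j, k, c * round ((j : ℝ) * x ^ k) + L, ?_⟩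
    have h4 : x ^ k * ((c * j : ℕ) : ℝ) - ((c * round ((j : ℝ) * x ^ k) + L : ℤ) : ℝ) =
        c * δ - L := by
      rw [hδ]
      push_cast
      ring
    rw [h4]
    constructor
    · linarith
    · linarith

/-- the equivalences for torsion-free groups -/
theorem eqv (S : AddSubmonoid ℂ) : List.TFAE [
    ∀ (G : Type u) [Group G], TF G → ∀ t : ℝ, DD S G t → ∃ d : ℤ, t = d,
    ∀ (G : Type u) [Group G], TF G → Group.FG G → ∃ N : ℕ, 0 < N ∧
      ∀ t : ℝ, DD S G t → ∃ d : ℤ, (N : ℝ) * t = d,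
    ∀ (G : Type u) [Group G], TF G → Group.FG G → ∃ r s : ℝ, 0 ≤ r ∧ r < s ∧ s ≤ 1 ∧
      ∀ t : ℝ, DD S G t → ∀ l : ℤ, ¬ (r < t - l ∧ t - l < s)] := by
  tfae_have 1 → 2 := by
    intro h G _ hG _
    refine ⟨1, one_pos, fun t ht => ?_⟩
    obtain ⟨d, hd⟩ := h G hG t ht
    exact ⟨d, by rw [hd]; simp⟩
  tfae_have 1 → 3 := by
    intro h G _ hG _
    refine ⟨0, 1, le_rfl, one_pos, le_rfl, fun t ht l => ?_⟩
    obtain ⟨d, hd⟩ := h G hG t ht
    rw [hd]
    rintro ⟨h1, h2⟩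
    have h3 : (l : ℝ) < d := by linarith
    have h4 : (d : ℝ) < l + 1 := by linarith
    have h5 : l < d := by exact_mod_cast h3
    have h6 : d < l + 1 := by exact_mod_cast h4
    omega
  tfae_have 2 → 1 := by
    intro h G _ hG x hx
    obtain ⟨H, _, hH, hHfg, hD⟩ := exists_rich hG hx
    obtain ⟨N, hN, hN2⟩ := h H hH hHfg
    refine int_of_bdd x N hN fun k => ?_
    have h1 := hN2 _ (hD 1 k)
    simpa using h1
  tfae_have 3 → 1 := by
    intro h G _ hG x hx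
    by_contra hcon
    push Not at hcon
    obtain ⟨H, _, hH, hHfg, hD⟩ := exists_rich hG hx
    obtain ⟨r, s, _, hrs, _, hno⟩ := h H hH hHfg
    obtain ⟨c, k, l, h1⟩ := dense_mod x hcon r s hrs
    exact hno _ (hD c k) l h1
  tfae_finish

/-- amplification for a single group -/
theorem amplify (S : AddSubmonoid ℂ) (G : Type u) [Group G] (d n N : ℕ) (hd : 0 < d) (hn : 0 < n)
    (hN : 0 < N) (hNn : N < 2 ^ n)
    (h : ∀ t : ℝ, DD S (Fin n → G) t → ∃ z : ℤ, (N : ℝ) * (d : ℝ) ^ n * t = z)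
    (x : ℝ) (hx : DD S G x) : ∃ z : ℤ, (d : ℝ) * x = z := by
  have h1 := h _ (hx.pow n)
  have h2 := h _ (hx.map (Pi.constMonoidHom (Fin n) G) (fun a ha => by
    have := congrFun ha ⟨0, hn⟩
    exact this))
  obtain ⟨z1, hz1⟩ := h1
  obtain ⟨z2, hz2⟩ := h2
  refine int_of_pow ((d : ℝ) * x) n N hn hN hNn (N * d ^ (n - 1)) (by positivity) ⟨z2, ?_⟩
    ⟨z1, ?_⟩
  · rw [← hz2]
    push_cast
    obtain ⟨k, rfl⟩ := Nat.exists_eq_succ_of_ne_zero hn.ne'
    rw [Nat.succ_sub_one, pow_succ]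
    ring
  · rw [← hz1, mul_pow]
    ring

end Pool.Agent.H917AT
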