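import Pool.Agent.H917AT.Rep

/-!
Kernels of matrices over group rings in `ℓ²(G)^m`: dimensions are multiplicative for commuting
subgroups in direct position.
-/

set_option autoImplicit false

namespace Pool.Agent.H917AT

open scoped ENNReal InnerProductSpace

universe u v w

section

variable {G : Type u} [Group G] {m n : ℕ}

/-- the kernel of right multiplication by `A` -/
noncomputable def KerS (A : Matrix (Fin m) (Fin n) (G →₀ ℂ)) : Submodule ℂ (L2 (Fin m × G)) where
  carrier := {x | ∀ (j : Fin n) (g : G),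
    ∑ i : Fin m, (A i j).sum (fun h c => x (i, g * h⁻¹) * c) = 0}
  add_mem' := by
    intro x y hx hy j g
    have h : ∀ i : Fin m, (A i j).sum (fun h c => (x + y) (i, g * h⁻¹) * c) =
        (A i j).sum (fun h c => x (i, g * h⁻¹) * c) +
        (A i j).sum (fun h c => y (i, g * h⁻¹) * c) := by
      intro i
      rw [← Finsupp.sum_add]
      refine Finsupp.sum_congr fun h _ => ?_
      show (x (i, g * h⁻¹) + y (i, g * h⁻¹)) * _ = _
      ring
    rw [Finset.sum_congr rfl (fun i _ => h i), Finset.sum_add_distrib, hx j g, hy j g, add_zero]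
  zero_mem' := by
    intro j g
    refine Finset.sum_eq_zero fun i _ => ?_
    rw [Finsupp.sum]
    refine Finset.sum_eq_zero fun h _ => ?_
    show (0 : ℂ) * _ = 0
    rw [zero_mul]
  smul_mem' := by
    intro a x hx j g
    have h : ∀ i : Fin m, (A i j).sum (fun h c => (a • x) (i, g * h⁻¹) * c) =
        a * (A i j).sum (fun h c => x (i, g * h⁻¹) * c) := by
      intro i
      rw [Finsupp.mul_sum]
      refine Finsupp.sum_congr fun h _ => ?_
      show (a * x (i, g * h⁻¹)) * _ = _
      ring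
    rw [Finset.sum_congr rfl (fun i _ => h i), ← Finset.mul_sum, hx j g, mul_zero]

theorem mem_KerS (A : Matrix (Fin m) (Fin n) (G →₀ ℂ)) (x : L2 (Fin m × G)) :
    x ∈ KerS A ↔ ∀ (j : Fin n) (g : G),
      ∑ i : Fin m, (A i j).sum (fun h c => x (i, g * h⁻¹) * c) = 0 := Iff.rfl

theorem continuous_ev {X : Type*} (z : X) : Continuous (fun x : L2 X => x z) := by
  have h : ∀ f g : L2 X, ‖f z - g z‖ ≤ ‖f - g‖ := fun f g =>
    lp.norm_apply_le_norm (by norm_num) (f - g) z
  rw [Metric.continuous_iff]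
  intro b ε hε
  refine ⟨ε, hε, fun a ha => ?_⟩
  rw [dist_eq_norm] at ha ⊢
  exact (h a b).trans_lt ha

theorem KerS_closed (A : Matrix (Fin m) (Fin n) (G →₀ ℂ)) :
    IsClosed (KerS A : Set (L2 (Fin m × G))) := by
  have h : (KerS A : Set (L2 (Fin m × G))) = ⋂ (j : Fin n) (g : G),
      {x : L2 (Fin m × G) | ∑ i : Fin m, (A i j).sum (fun h c => x (i, g * h⁻¹) * c) = 0} := by
    ext x
    simp only [SetLike.mem_coe, mem_KerS, Set.mem_iInter, Set.mem_ofPred_eq]
  rw [h]
  refine isClosed_iInter fun j => isClosed_iInter fun g => ?_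
  refine isClosed_eq ?_ continuous_const
  refine continuous_finsetSum _ fun i _ => ?_
  unfold Finsupp.sum
  refine continuous_finsetSum _ fun h _ => ?_
  exact (continuous_ev _).mul continuous_const

open Classical in
/-- the von Neumann dimension of the kernel -/
noncomputable def kd (A : Matrix (Fin m) (Fin n) (G →₀ ℂ)) : ℝ :=
  ∑ i : Fin m, pd (KerS A : Set (L2 (Fin m × G))) (i, (1 : G))

end

section

variable {G : Type u} [Group G] {G' : Type v} [Group G'] {H : Type w} [Group H]
  {m n m' n' : ℕ}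

/-- index of equations -/
abbrev Ix (m n m' n' : ℕ) : Type := (Fin n × Fin m') ⊕ (Fin m × Fin n')

open Classical in
/-- the matrix whose kernel is the tensor product of the kernels -/
noncomputable def CC (φ : G →* H) (ψ : G' →* H) (A : Matrix (Fin m) (Fin n) (G →₀ ℂ))
    (B : Matrix (Fin m') (Fin n') (G' →₀ ℂ)) :
    Matrix (Fin (m * m')) (Fin (Fintype.card (Ix m n m' n'))) (H →₀ ℂ) :=
  Matrix.of fun a b =>
    Sum.elim
      (fun q : Fin n × Fin m' => if (finProdFinEquiv.symm a).2 = q.2 then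
        (A (finProdFinEquiv.symm a).1 q.1).mapDomain φ else 0)
      (fun q : Fin m × Fin n' => if (finProdFinEquiv.symm a).1 = q.1 then
        (B (finProdFinEquiv.symm a).2 q.2).mapDomain ψ else 0)
      ((Fintype.equivFin (Ix m n m' n')).symm b)

theorem mem_CC (φ : G →* H) (ψ : G' →* H) (A : Matrix (Fin m) (Fin n) (G →₀ ℂ))
    (B : Matrix (Fin m') (Fin n') (G' →₀ ℂ)) (f : L2 (Fin (m * m') × H)) :
    f ∈ KerS (CC φ ψ A B) ↔
      (∀ (j : Fin n) (i' : Fin m') (z : H), ∑ i : Fin m, (A i j).sum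
        (fun h c => f (finProdFinEquiv (i, i'), z * (φ h)⁻¹) * c) = 0) ∧
      (∀ (i : Fin m) (j' : Fin n') (z : H), ∑ i' : Fin m', (B i' j').sum
        (fun h c => f (finProdFinEquiv (i, i'), z * (ψ h)⁻¹) * c) = 0) := by
  classical
  have e1 : ∀ (b : Ix m n m' n') (z : H),
      ∑ a : Fin (m * m'), (CC φ ψ A B a (Fintype.equivFin (Ix m n m' n') b)).sum
        (fun h c => f (a, z * h⁻¹) * c) =
      ∑ i : Fin m, ∑ i' : Fin m', (Sum.elim
        (fun q : Fin n × Fin m' => if i' = q.2 then (A i q.1).mapDomain φ else 0)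
        (fun q : Fin m × Fin n' => if i = q.1 then (B i' q.2).mapDomain ψ else 0) b).sum
        (fun h c => f (finProdFinEquiv (i, i'), z * h⁻¹) * c) := by
    intro b z
    rw [← finProdFinEquiv.sum_comp, Fintype.sum_prod_type]
    refine Finset.sum_congr rfl fun i _ => Finset.sum_congr rfl fun i' _ => ?_
    simp only [CC, Matrix.of_apply, Equiv.symm_apply_apply]
  have e2 : ∀ (j : Fin n) (i0 : Fin m') (z : H), (∑ i : Fin m, ∑ i' : Fin m', (Sum.elim
        (fun q : Fin n × Fin m' => if i' = q.2 then (A i q.1).mapDomain φ else 0)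
        (fun q : Fin m × Fin n' => if i = q.1 then (B i' q.2).mapDomain ψ else 0)
        (Sum.inl (j, i0) : Ix m n m' n')).sum
        (fun h c => f (finProdFinEquiv (i, i'), z * h⁻¹) * c)) =
      ∑ i : Fin m, (A i j).sum (fun h c => f (finProdFinEquiv (i, i0), z * (φ h)⁻¹) * c) := by
    intro j i0 z
    refine Finset.sum_congr rfl fun i _ => ?_
    rw [Finset.sum_eq_single i0]
    · simp only [Sum.elim_inl, if_true]
      rw [Finsupp.sum_mapDomain_index]
      · intro b; rw [mul_zero]
      · intro b c d; rw [mul_add]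
    · intro i' _ hne
      simp only [Sum.elim_inl, if_neg hne]
      exact Finsupp.sum_zero_index
    · intro h; exact absurd (Finset.mem_univ _) h
  have e3 : ∀ (i0 : Fin m) (j' : Fin n') (z : H), (∑ i : Fin m, ∑ i' : Fin m', (Sum.elim
        (fun q : Fin n × Fin m' => if i' = q.2 then (A i q.1).mapDomain φ else 0)
        (fun q : Fin m × Fin n' => if i = q.1 then (B i' q.2).mapDomain ψ else 0)
        (Sum.inr (i0, j') : Ix m n m' n')).sum
        (fun h c => f (finProdFinEquiv (i, i'), z * h⁻¹) * c)) =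
      ∑ i' : Fin m', (B i' j').sum
        (fun h c => f (finProdFinEquiv (i0, i'), z * (ψ h)⁻¹) * c) := by
    intro i0 j' z
    rw [Finset.sum_eq_single i0]
    · refine Finset.sum_congr rfl fun i' _ => ?_
      simp only [Sum.elim_inr, if_true]
      rw [Finsupp.sum_mapDomain_index]
      · intro b; rw [mul_zero]
      · intro b c d; rw [mul_add]
    · intro i _ hne
      refine Finset.sum_eq_zero fun i' _ => ?_
      simp only [Sum.elim_inr, if_neg hne]
      exact Finsupp.sum_zero_index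
    · intro h; exact absurd (Finset.mem_univ _) h
  rw [mem_KerS]
  constructor
  · intro h
    refine ⟨fun j i' z => ?_, fun i j' z => ?_⟩
    · rw [← e2, ← e1]; exact h _ z
    · rw [← e3, ← e1]; exact h _ z
  · rintro ⟨h1, h2⟩ b z
    obtain ⟨b, rfl⟩ := (Fintype.equivFin (Ix m n m' n')).surjective b
    rw [e1]
    rcases b with ⟨j, i'⟩ | ⟨i, j'⟩
    · rw [e2]; exact h1 j i' z
    · rw [e3]; exact h2 i j' z

/-- multiplicativity of the dimension of kernels -/
theorem kd_CC (φ : G →* H) (ψ : G' →* H) (hc : ∀ a b, φ a * ψ b = ψ b * φ a)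
    (hi : ∀ a b, φ a * ψ b = 1 → a = 1 ∧ b = 1) (A : Matrix (Fin m) (Fin n) (G →₀ ℂ))
    (B : Matrix (Fin m') (Fin n') (G' →₀ ℂ)) : kd (CC φ ψ A B) = kd A * kd B := by
  classical
  set e : (Fin m × G) × (Fin m' × G') → Fin (m * m') × H :=
    fun p => (finProdFinEquiv (p.1.1, p.2.1), φ p.1.2 * ψ p.2.2) with he
  have hinj : Function.Injective e := by
    rintro ⟨⟨i, g⟩, ⟨i', g'⟩⟩ ⟨⟨k, h⟩, ⟨k', h'⟩⟩ heq
    simp only [he, Prod.mk.injEq, EmbeddingLike.apply_eq_iff_eq] at heq
    obtain ⟨⟨rfl, rfl⟩, h2⟩ := heq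
    have h3 : φ (h⁻¹ * g) * ψ (g' * h'⁻¹) = 1 := by
      rw [map_mul, map_mul, map_inv, map_inv]
      calc (φ h)⁻¹ * φ g * (ψ g' * (ψ h')⁻¹) = (φ h)⁻¹ * (φ g * ψ g') * (ψ h')⁻¹ := by group
        _ = (φ h)⁻¹ * (φ h * ψ h') * (ψ h')⁻¹ := by rw [h2]
        _ = 1 := by group
    obtain ⟨h4, h5⟩ := hi _ _ h3
    have h6 : g = h := by rw [inv_mul_eq_one] at h4; exact h4.symm
    have h7 : g' = h' := mul_inv_eq_one.1 h5
    rw [h6, h7]
  have hcinv : ∀ a b, ψ b * (φ a)⁻¹ = (φ a)⁻¹ * ψ b := by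
    intro a b
    have h := hc a⁻¹ b
    rw [map_inv] at h
    exact h.symm
  have h1 : ∀ f ∈ KerS (CC φ ψ A B), ∀ y,
      (⟨fun x => f (e (x, y)), slice_mem e hinj f y⟩ : L2 (Fin m × G)) ∈ KerS A := by
    rintro f hf ⟨i', g'⟩
    rw [mem_KerS]
    intro j g
    have h2 := ((mem_CC φ ψ A B f).1 hf).1 j i' (φ g * ψ g')
    rw [← h2]
    refine Finset.sum_congr rfl fun i _ => ?_
    refine Finsupp.sum_congr fun h _ => ?_
    show f (finProdFinEquiv (i, i'), φ (g * h⁻¹) * ψ g') * _ = _
    rw [map_mul, map_inv, mul_assoc (φ g), ← hcinv, ← mul_assoc]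
  have h2 : ∀ f ∈ KerS (CC φ ψ A B), ∀ x,
      (⟨fun y => f (e (x, y)), slice_mem' e hinj f x⟩ : L2 (Fin m' × G')) ∈ KerS B := by
    rintro f hf ⟨i, g⟩
    rw [mem_KerS]
    intro j g'
    have h2 := ((mem_CC φ ψ A B f).1 hf).2 i j (φ g * ψ g')
    rw [← h2]
    refine Finset.sum_congr rfl fun i' _ => ?_
    refine Finsupp.sum_congr fun h _ => ?_
    show f (finProdFinEquiv (i, i'), φ g * ψ (g' * h⁻¹)) * _ = _
    rw [map_mul, map_inv, ← mul_assoc]
  have h3 : ∀ u ∈ KerS A, ∀ w ∈ KerS B, pv e hinj u w ∈ KerS (CC φ ψ A B) := by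
    intro u hu w hw
    rw [mem_CC]
    constructor
    · intro j i' z
      by_cases hz : ∃ g g', z = φ g * ψ g'
      · obtain ⟨g, g', rfl⟩ := hz
        have h4 : ∀ (i : Fin m) (h : G),
            pv e hinj u w (finProdFinEquiv (i, i'), φ g * ψ g' * (φ h)⁻¹) =
              u (i, g * h⁻¹) * w (i', g') := by
          intro i h
          have h5 : (finProdFinEquiv (i, i'), φ g * ψ g' * (φ h)⁻¹) =
              e ((i, g * h⁻¹), (i', g')) := by
            simp only [he]
            congr 1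
            rw [map_mul, map_inv, mul_assoc (φ g) _ (ψ g'), ← hcinv, ← mul_assoc]
          rw [h5, pv_apply]
        have h5 : ∀ i : Fin m, (A i j).sum (fun h c =>
            pv e hinj u w (finProdFinEquiv (i, i'), φ g * ψ g' * (φ h)⁻¹) * c) =
            w (i', g') * (A i j).sum (fun h c => u (i, g * h⁻¹) * c) := by
          intro i
          rw [Finsupp.mul_sum]
          refine Finsupp.sum_congr fun h _ => ?_
          rw [h4]
          ring
        rw [Finset.sum_congr rfl (fun i _ => h5 i), ← Finset.mul_sum, hu j g, mul_zero]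
      · refine Finset.sum_eq_zero fun i _ => ?_
        rw [Finsupp.sum]
        refine Finset.sum_eq_zero fun h _ => ?_
        rw [pv_apply', zero_mul]
        rintro ⟨⟨k, g⟩, ⟨k', g'⟩⟩ hp
        apply hz
        have h6 : φ g * ψ g' = z * (φ h)⁻¹ := congrArg Prod.snd hp
        refine ⟨g * h, g', ?_⟩
        rw [map_mul, mul_assoc, hc h g', ← mul_assoc, h6]
        group
    · intro i j' z
      by_cases hz : ∃ g g', z = φ g * ψ g'
      · obtain ⟨g, g', rfl⟩ := hz
        have h4 : ∀ (i' : Fin m') (h : G'),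
            pv e hinj u w (finProdFinEquiv (i, i'), φ g * ψ g' * (ψ h)⁻¹) =
              u (i, g) * w (i', g' * h⁻¹) := by
          intro i' h
          have h5 : (finProdFinEquiv (i, i'), φ g * ψ g' * (ψ h)⁻¹) =
              e ((i, g), (i', g' * h⁻¹)) := by
            simp only [he]
            congr 1
            rw [map_mul, map_inv, ← mul_assoc]
          rw [h5, pv_apply]
        have h5 : ∀ i' : Fin m', (B i' j').sum (fun h c =>
            pv e hinj u w (finProdFinEquiv (i, i'), φ g * ψ g' * (ψ h)⁻¹) * c) =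
            u (i, g) * (B i' j').sum (fun h c => w (i', g' * h⁻¹) * c) := by
          intro i'
          rw [Finsupp.mul_sum]
          refine Finsupp.sum_congr fun h _ => ?_
          rw [h4]
          ring
        rw [Finset.sum_congr rfl (fun i' _ => h5 i'), ← Finset.mul_sum, hw j' g', mul_zero]
      · refine Finset.sum_eq_zero fun i' _ => ?_
        rw [Finsupp.sum]
        refine Finset.sum_eq_zero fun h _ => ?_
        rw [pv_apply', zero_mul]
        rintro ⟨⟨k, g⟩, ⟨k', g'⟩⟩ hp
        apply hz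
        have h6 : φ g * ψ g' = z * (ψ h)⁻¹ := congrArg Prod.snd hp
        refine ⟨g, g' * h, ?_⟩
        rw [map_mul, ← mul_assoc, h6]
        group
  choose u hu using fun i : Fin m => exists_Rp (KerS A) (KerS_closed A) (i, (1 : G))
  choose w hw using fun i : Fin m' => exists_Rp (KerS B) (KerS_closed B) (i, (1 : G'))
  have hA : kd A = ∑ i, ‖u i‖ ^ 2 := by
    unfold kd
    exact Finset.sum_congr rfl fun i _ => (hu i).pd_eq
  have hB : kd B = ∑ i, ‖w i‖ ^ 2 := by
    unfold kd
    exact Finset.sum_congr rfl fun i _ => (hw i).pd_eq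
  have hC : kd (CC φ ψ A B) = ∑ i, ∑ i', ‖u i‖ ^ 2 * ‖w i'‖ ^ 2 := by
    unfold kd
    rw [← finProdFinEquiv.sum_comp, Fintype.sum_prod_type]
    refine Finset.sum_congr rfl fun i _ => Finset.sum_congr rfl fun i' _ => ?_
    have h4 := Rp.prod e hinj h1 h2 h3 (hu i) (hw i')
    have h5 : e ((i, (1 : G)), (i', (1 : G'))) = (finProdFinEquiv (i, i'), (1 : H)) := by
      simp [he]
    rw [h5] at h4
    rw [h4.pd_eq, pv_norm]
  rw [hA, hB, hC, Finset.sum_mul_sum]

end

end Pool.Agent.H917AT
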