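import Mathlib

/-!
Reproducing vectors of closed subspaces of `ℓ²(X)` and their products.
-/

set_option autoImplicit false

namespace Pool.Agent.H917AT

open scoped ENNReal InnerProductSpace

universe u v w

/-- square summable functions -/
noncomputable abbrev L2 (X : Type u) := lp (fun _ : X => ℂ) 2

theorem two_pos' : 0 < (2 : ℝ≥0∞).toReal := by norm_num

section

variable {X : Type u} {Y : Type v} {Z : Type w}

theorem mem_iff (f : X → ℂ) : Memℓp f 2 ↔ Summable (fun x => ‖f x‖ ^ 2) := by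
  rw [memℓp_gen_iff two_pos']
  norm_num

theorem summ (f : L2 X) : Summable (fun x => ‖f x‖ ^ 2) := (mem_iff _).1 (lp.memℓp f)

theorem norm_sq (f : L2 X) : ‖f‖ ^ 2 = ∑' x, ‖f x‖ ^ 2 := by
  have := lp.norm_rpow_eq_tsum two_pos' f
  norm_num at this
  exact this

/-- the function `x ↦ 1 - dist(δ_x, V)^2` -/
noncomputable def pd [DecidableEq X] (V : Set (L2 X)) (x : X) : ℝ :=
  1 - Metric.infDist (lp.single 2 x (1 : ℂ) : L2 X) V ^ 2

/-- `u` is the projection of `δ_x` -/
def Rp (V : Submodule ℂ (L2 X)) (x : X) (u : L2 X) : Prop :=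
  u ∈ V ∧ ∀ f ∈ V, f x = ⟪u, f⟫_ℂ

theorem Rp.pd_eq [DecidableEq X] {V : Submodule ℂ (L2 X)} {x : X} {u : L2 X} (h : Rp V x u) :
    pd (V : Set (L2 X)) x = ‖u‖ ^ 2 := by
  set d : L2 X := lp.single 2 x (1 : ℂ) with hd
  have hdn : ‖d‖ = 1 := by
    rw [hd, lp.norm_single (by norm_num)]
    simp
  have hdi : ∀ f : L2 X, ⟪d, f⟫_ℂ = f x := by
    intro f
    rw [hd, lp.inner_single_left]
    simp
  have horth : ∀ f ∈ V, ⟪d - u, f⟫_ℂ = 0 := by
    intro f hf
    rw [inner_sub_left, hdi, h.2 f hf, sub_self]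
  have hpyth : ∀ f ∈ V, ‖d - f‖ ^ 2 = ‖d - u‖ ^ 2 + ‖u - f‖ ^ 2 := by
    intro f hf
    have h1 := norm_add_sq_eq_norm_sq_add_norm_sq_of_inner_eq_zero (𝕜 := ℂ) (d - u) (u - f)
      (horth _ (V.sub_mem h.1 hf))
    rw [sub_add_sub_cancel] at h1
    rw [pow_two, pow_two, pow_two]
    exact h1
  have hinf : Metric.infDist d (V : Set (L2 X)) = ‖d - u‖ := by
    apply le_antisymm
    · rw [← dist_eq_norm]
      exact Metric.infDist_le_dist_of_mem h.1
    · rw [Metric.le_infDist ⟨u, h.1⟩]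
      intro f hf
      rw [dist_eq_norm]
      have h1 := hpyth f hf
      have h2 : ‖d - u‖ ^ 2 ≤ ‖d - f‖ ^ 2 := by rw [h1]; nlinarith [sq_nonneg ‖u - f‖]
      exact (pow_le_pow_iff_left₀ (norm_nonneg _) (norm_nonneg _) two_ne_zero).1 h2
  have h0 := hpyth 0 V.zero_mem
  rw [sub_zero, sub_zero, hdn] at h0
  unfold pd
  rw [hinf]
  linarith

theorem exists_Rp [DecidableEq X] (V : Submodule ℂ (L2 X)) (hV : IsClosed (V : Set (L2 X))) (x : X) :
    ∃ u, Rp V x u := by
  have : CompleteSpace V := hV.completeSpace_coe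
  have : V.HasOrthogonalProjection := inferInstance
  set d : L2 X := lp.single 2 x (1 : ℂ) with hd
  have hdi : ∀ f : L2 X, ⟪d, f⟫_ℂ = f x := by
    intro f
    rw [hd, lp.inner_single_left]
    simp
  refine ⟨V.starProjection d, Submodule.starProjection_apply_mem _ _, fun f hf => ?_⟩
  have h1 := Submodule.inner_starProjection_left_eq_right V d f
  rw [Submodule.starProjection_eq_self_iff.2 hf] at h1
  rw [h1, hdi]

/-- extension by zero along an injective map of a product function -/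
theorem summ_prod (u : L2 X) (w : L2 Y) : Summable (fun p : X × Y => ‖u p.1 * w p.2‖ ^ 2) := by
  have h := (summ u).mul_of_nonneg (summ w) (fun _ => by positivity) (fun _ => by positivity)
  refine h.congr fun p => ?_
  rw [norm_mul, mul_pow]

theorem pv_mem (e : X × Y → Z) (he : Function.Injective e) (u : L2 X) (w : L2 Y) :
    Memℓp (Function.extend e (fun p => u p.1 * w p.2) 0 : Z → ℂ) 2 := by
  rw [mem_iff]
  rw [← he.summable_iff]
  · refine (summ_prod u w).congr fun p => ?_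
    simp only [Function.comp_apply, he.extend_apply]
  · intro z hz
    rw [Function.extend_apply' _ _ _ (by simpa using hz)]
    simp

/-- the product vector, extended by zero along `e` -/
noncomputable def pv (e : X × Y → Z) (he : Function.Injective e) (u : L2 X) (w : L2 Y) : L2 Z :=
  ⟨Function.extend e (fun p => u p.1 * w p.2) 0, pv_mem e he u w⟩

theorem pv_apply (e : X × Y → Z) (he : Function.Injective e) (u : L2 X) (w : L2 Y) (p : X × Y) :
    pv e he u w (e p) = u p.1 * w p.2 := by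
  show Function.extend e (fun p => u p.1 * w p.2) 0 (e p) = _
  rw [he.extend_apply]

theorem pv_apply' (e : X × Y → Z) (he : Function.Injective e) (u : L2 X) (w : L2 Y) (z : Z)
    (hz : ∀ p, e p ≠ z) : pv e he u w z = 0 := by
  show Function.extend e (fun p => u p.1 * w p.2) 0 z = _
  rw [Function.extend_apply' _ _ _ (by rintro ⟨p, hp⟩; exact hz p hp)]
  rfl

theorem pv_norm (e : X × Y → Z) (he : Function.Injective e) (u : L2 X) (w : L2 Y) :
    ‖pv e he u w‖ ^ 2 = ‖u‖ ^ 2 * ‖w‖ ^ 2 := by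
  rw [norm_sq, norm_sq u, norm_sq w]
  have h1 : ∑' z, ‖pv e he u w z‖ ^ 2 = ∑' p : X × Y, ‖u p.1‖ ^ 2 * ‖w p.2‖ ^ 2 := by
    rw [← he.tsum_eq]
    · refine tsum_congr fun p => ?_
      rw [pv_apply, norm_mul, mul_pow]
    · intro z hz
      by_contra hne
      apply hz
      show ‖pv e he u w z‖ ^ 2 = 0
      rw [pv_apply' e he u w z (fun p hp => hne ⟨p, hp⟩)]
      simp
  rw [h1]
  have h2 := (summ u).mul_of_nonneg (summ w) (fun _ => by positivity) (fun _ => by positivity)
  rw [(summ u).tsum_mul_tsum (summ w) h2]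

theorem slice_mem (e : X × Y → Z) (he : Function.Injective e) (f : L2 Z) (y : Y) :
    Memℓp (fun x => f (e (x, y))) 2 := by
  rw [mem_iff]
  have hi : Function.Injective (fun x => e (x, y)) := by
    intro a b hab
    exact congrArg Prod.fst (he hab)
  exact (summ f).comp_injective hi

theorem slice_mem' (e : X × Y → Z) (he : Function.Injective e) (f : L2 Z) (x : X) :
    Memℓp (fun y => f (e (x, y))) 2 := by
  rw [mem_iff]
  have hi : Function.Injective (fun y => e (x, y)) := by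
    intro a b hab
    exact congrArg Prod.snd (he hab)
  exact (summ f).comp_injective hi

/-- the product of reproducing vectors -/
theorem Rp.prod (e : X × Y → Z) (he : Function.Injective e) {V : Submodule ℂ (L2 X)}
    {W : Submodule ℂ (L2 Y)} {U : Submodule ℂ (L2 Z)}
    (h1 : ∀ f ∈ U, ∀ y, (⟨fun x => f (e (x, y)), slice_mem e he f y⟩ : L2 X) ∈ V)
    (h2 : ∀ f ∈ U, ∀ x, (⟨fun y => f (e (x, y)), slice_mem' e he f x⟩ : L2 Y) ∈ W)
    (h3 : ∀ u ∈ V, ∀ w ∈ W, pv e he u w ∈ U)
    {x : X} {y : Y} {u : L2 X} {w : L2 Y} (hu : Rp V x u) (hw : Rp W y w) :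
    Rp U (e (x, y)) (pv e he u w) := by
  refine ⟨h3 u hu.1 w hw.1, fun f hf => ?_⟩
  have hsum := lp.summable_inner (𝕜 := ℂ) (pv e he u w) f
  rw [lp.inner_eq_tsum]
  have e1 : ∑' z, ⟪pv e he u w z, f z⟫_ℂ =
      ∑' p : X × Y, ⟪u p.1 * w p.2, f (e p)⟫_ℂ := by
    rw [← he.tsum_eq]
    · refine tsum_congr fun p => ?_
      rw [pv_apply]
    · intro z hz
      by_contra hne
      apply hz
      show ⟪pv e he u w z, f z⟫_ℂ = 0
      rw [pv_apply' e he u w z (fun p hp => hne ⟨p, hp⟩), inner_zero_left]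
  have hs2 : Summable (fun p : X × Y => ⟪u p.1 * w p.2, f (e p)⟫_ℂ) := by
    refine (hsum.comp_injective he).congr fun p => ?_
    simp only [Function.comp_apply, pv_apply]
  rw [e1]
  have hs3 : Summable (fun p : Y × X => ⟪u p.2 * w p.1, f (e (p.2, p.1))⟫_ℂ) :=
    (Equiv.prodComm Y X).summable_iff.2 hs2
  rw [← (Equiv.prodComm Y X).tsum_eq]
  show f (e (x, y)) = ∑' p : Y × X, ⟪u p.2 * w p.1, f (e (p.2, p.1))⟫_ℂ
  rw [hs3.tsum_prod' (fun y' => hs3.comp_injective (Prod.mk_right_injective y'))]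
  have e2 : ∀ y', ∑' x', ⟪u x' * w y', f (e (x', y'))⟫_ℂ = ⟪w y', f (e (x, y'))⟫_ℂ := by
    intro y'
    have h4 := hu.2 _ (h1 f hf y')
    rw [lp.inner_eq_tsum] at h4
    have h5 : f (e (x, y')) = ∑' x', ⟪u x', f (e (x', y'))⟫_ℂ := h4
    have h6 : ∀ x', ⟪u x' * w y', f (e (x', y'))⟫_ℂ =
        (starRingEnd ℂ) (w y') * ⟪u x', f (e (x', y'))⟫_ℂ := by
      intro x'
      simp only [RCLike.inner_apply, map_mul]
      ring
    rw [tsum_congr h6, tsum_mul_left, ← h5]
    simp only [RCLike.inner_apply]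
    ring
  rw [tsum_congr e2]
  have h4 := hw.2 _ (h2 f hf x)
  rw [lp.inner_eq_tsum] at h4
  exact h4

end

end Pool.Agent.H917AT
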